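import Pool.Agent.Y502.PC.Pal
import Pool.Agent.H643R2.EadCone

set_option autoImplicit false

/-!
# Closure properties of the cone of the recursive language
-/

namespace Pool.Agent.Y502.PC

open Pool.Agent.Helper288.Cone
open Pool.Agent.H643R2.RunLem
open Pool.Agent.H643R2
open Pool.Agent.H643R2.Ead (split_marker rep_count)

variable {A : Type}

/-- level shift of a letter -/
def kapL : Sk A → List (Sk A)
  | Sk.p => [Sk.s, Sk.p]
  | Sk.q => [Sk.s, Sk.q]
  | Sk.s => [Sk.s]
  | Sk.y a => [Sk.y a]

/-- level shift of a word -/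
def kap (w : List (Sk A)) : List (Sk A) := w.flatMap kapL

theorem kap_append (u v : List (Sk A)) : kap (u ++ v) = kap u ++ kap v := by
  simp [kap]

theorem kap_cons (a : Sk A) (v : List (Sk A)) : kap (a :: v) = kapL a ++ kap v := by
  simp [kap]

theorem kap_rep (n : ℕ) (y : List (Sk A)) : kap (rep n y) = rep n (kap y) := by
  induction n with
  | zero => rfl
  | succ n ih => rw [rep_succ, rep_succ, kap_append, ih]

theorem kap_reps (n : ℕ) :
    kap (List.replicate n (Sk.s : Sk A)) = List.replicate n Sk.s := by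
  induction n with
  | zero => rfl
  | succ n ih => rw [List.replicate_succ, kap_cons, ih]; rfl

theorem kap_mp (l : ℕ) : kap (mp l : List (Sk A)) = mp (l + 1) := by
  rw [mp, kap_append, kap_reps, mp, List.replicate_succ', List.append_assoc]
  rfl

theorem kap_mq (l : ℕ) : kap (mq l : List (Sk A)) = mq (l + 1) := by
  rw [mq, kap_append, kap_reps, mq, List.replicate_succ', List.append_assoc]
  rfl

theorem kap_word (u : List A) : kap (u.map Sk.y) = u.map Sk.y := by
  induction u with
  | nil => rfl
  | cons a u ih => rw [List.map_cons, kap_cons, ih]; rfl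

theorem chk_kap (l : ℕ) (w : List (Sk A)) : ∀ b k, chk l b k w → chk (l + 1) b k (kap w) := by
  induction w with
  | nil => intro b k h; simpa [kap, chk] using h
  | cons a w ih =>
    intro b k h
    rw [kap_cons]
    cases a with
    | s => simp only [kapL, List.cons_append, List.nil_append, chk] at h ⊢; exact ih _ _ h
    | p =>
      simp only [kapL, List.cons_append, List.nil_append, chk] at h ⊢
      refine ⟨?_, ih _ _ h.2⟩
      have := h.1
      cases b <;> simp only [cond_true, cond_false] at this ⊢ <;> omega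
    | q =>
      simp only [kapL, List.cons_append, List.nil_append, chk] at h ⊢
      refine ⟨?_, ih _ _ h.2⟩
      have := h.1
      cases b <;> simp only [cond_true, cond_false] at this ⊢ <;> omega
    | y a => exact ⟨h.1, ih _ _ h.2⟩

theorem E_kap {K : Language A} {b : Bool} {l : ℕ} {w : List (Sk A)} (h : E K b l w) :
    E K b (l + 1) (kap w) := by
  induction h with
  | leaf h => exact E.leaf (chk_kap _ _ _ _ h)
  | word h => rw [kap_word]; exact E.word h
  | up _ ih => exact E.up ih
  | nil => exact E.nil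
  | @node l n F G hn _ _ hF hG =>
    rw [kap_append, kap_append, kap_append, kap_rep, kap_rep, kap_mp, kap_mq]
    exact E.node hn hF hG

theorem chk_unkap (l : ℕ) (w : List (Sk A)) :
    (∀ b, chk (l + 1) b 0 w → ∃ w', w = kap w' ∧ chk l b 0 w') ∧
    (∀ b k, chk (l + 1) b (k + 1) w → ∃ w', Sk.s :: w = kap w' ∧ chk l b k w') := by
  induction w with
  | nil =>
    refine ⟨fun b _ => ⟨[], rfl, rfl⟩, fun b k h => ?_⟩
    simp [chk] at h
  | cons a w ih =>
    cases a with
    | s =>
      refine ⟨fun b h => ih.2 b 0 h, fun b k h => ?_⟩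
      obtain ⟨w', h1, h2⟩ := ih.2 b (k + 1) h
      refine ⟨Sk.s :: w', ?_, h2⟩
      rw [kap_cons, ← h1]; rfl
    | p =>
      refine ⟨fun b h => ?_, fun b k h => ?_⟩
      · simp only [chk] at h
        have := h.1
        cases b <;> simp at this
      · simp only [chk] at h
        obtain ⟨w', h1, h2⟩ := ih.1 false h.2
        refine ⟨Sk.p :: w', ?_, ?_⟩
        · rw [kap_cons, ← h1]; rfl
        · simp only [chk]
          refine ⟨?_, h2⟩
          have := h.1
          cases b <;> simp only [cond_true, cond_false] at this ⊢ <;> omega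
    | q =>
      refine ⟨fun b h => ?_, fun b k h => ?_⟩
      · simp only [chk] at h
        have := h.1
        cases b <;> simp at this
      · simp only [chk] at h
        obtain ⟨w', h1, h2⟩ := ih.1 false h.2
        refine ⟨Sk.q :: w', ?_, ?_⟩
        · rw [kap_cons, ← h1]; rfl
        · simp only [chk]
          refine ⟨?_, h2⟩
          have := h.1
          cases b <;> simp only [cond_true, cond_false] at this ⊢ <;> omega
    | y a =>
      refine ⟨fun b h => ?_, fun b k h => ?_⟩
      · obtain ⟨h1, h2⟩ := h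
        obtain ⟨w', h3, h4⟩ := ih.1 false h2
        refine ⟨Sk.y a :: w', ?_, ⟨h1, h4⟩⟩
        rw [kap_cons, ← h3]; rfl
      · obtain ⟨⟨_, h1⟩, _⟩ := h
        omega

theorem E_unkap {K : Language A} {b : Bool} {l : ℕ} {w : List (Sk A)} (h : E K b (l + 1) w) :
    ∃ w', w = kap w' ∧ E K b l w' := by
  generalize hm : l + 1 = m at h
  induction h generalizing l with
  | @leaf m w h =>
    subst hm
    obtain ⟨w', h1, h2⟩ := (chk_unkap l w).1 true h
    exact ⟨w', h1, E.leaf h2⟩
  | @word m u h => exact ⟨u.map Sk.y, (kap_word u).symm, E.word h⟩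
  | up _ ih =>
    obtain ⟨w', h1, h2⟩ := ih hm
    exact ⟨w', h1, E.up h2⟩
  | nil => exact ⟨[], rfl, E.nil⟩
  | @node m n F G hn _ _ hF hG =>
    subst hm
    obtain ⟨F', rfl, hF'⟩ := hF rfl
    obtain ⟨G', rfl, hG'⟩ := hG rfl
    refine ⟨_, ?_, E.node hn hF' hG'⟩
    rw [kap_append, kap_append, kap_append, kap_rep, kap_rep, kap_mp, kap_mq]

/-- removing one `s` from every block and marking the blocks without `s` -/
def rho : Bool → List (Sk A) → List (Sk A ⊕ Bool)
  | _, [] => []
  | false, Sk.s :: w => rho true w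
  | true, Sk.s :: w => Sum.inl Sk.s :: rho true w
  | false, Sk.p :: w => Sum.inr true :: rho false w
  | true, Sk.p :: w => Sum.inl Sk.p :: rho false w
  | false, Sk.q :: w => Sum.inr false :: rho false w
  | true, Sk.q :: w => Sum.inl Sk.q :: rho false w
  | false, Sk.y a :: w => Sum.inl (Sk.y a) :: rho false w
  | true, Sk.y a :: w => Sum.inl (Sk.y a) :: rho false w

/-- the transducer of `rho` -/
def rhoTr (A : Type) : Tr (Sk A) (Sk A ⊕ Bool) where
  σ := Bool
  fin := inferInstance
  step := fun b x y b' =>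
    (x = some Sk.s ∧ b' = true ∧ y = if b then some (Sum.inl Sk.s) else none) ∨
    (x = some Sk.p ∧ b' = false ∧ y = some (if b then Sum.inl Sk.p else Sum.inr true)) ∨
    (x = some Sk.q ∧ b' = false ∧ y = some (if b then Sum.inl Sk.q else Sum.inr false)) ∨
    (∃ a, x = some (Sk.y a) ∧ b' = false ∧ y = some (Sum.inl (Sk.y a)))
  start := fun b => b = false
  acc := fun _ => True

theorem rhoTr_rel (w : List (Sk A)) (v : List (Sk A ⊕ Bool)) :
    (rhoTr A).rel w v ↔ v = rho false w := by
  constructor
  · rintro ⟨b, b', hb, -, h⟩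
    have key : ∀ {b b' : (rhoTr A).σ} {w : List (Sk A)} {v : List (Sk A ⊕ Bool)},
        (rhoTr A).Run b w v b' → v = rho b w := by
      intro b b' w v h
      induction h with
      | nil b => cases b <;> rfl
      | @cons b c d x y w v hs _ ih =>
        rcases hs with ⟨rfl, rfl, rfl⟩ | ⟨rfl, rfl, rfl⟩ | ⟨rfl, rfl, rfl⟩ | ⟨a, rfl, rfl, rfl⟩ <;>
          · subst ih
            cases b <;> rfl
    have hb' : b = false := hb
    rw [hb'] at h
    exact key h
  · rintro rfl
    have key : ∀ (w : List (Sk A)) (b : Bool), ∃ b', (rhoTr A).Run b w (rho b w) b' := by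
      intro w
      induction w with
      | nil =>
        intro b
        refine ⟨b, ?_⟩
        have : rho b ([] : List (Sk A)) = [] := by cases b <;> rfl
        rw [this]
        exact Tr.Run.nil (T := rhoTr A) b
      | cons a w ih =>
        intro b
        cases a with
        | s =>
          obtain ⟨b', hb'⟩ := ih true
          refine ⟨b', ?_⟩
          have := Tr.Run.cons (T := rhoTr A) (p := b) (q := true) (x := some Sk.s)
            (y := if b then some (Sum.inl Sk.s) else none) (Or.inl ⟨rfl, rfl, rfl⟩) hb'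
          cases b <;> exact this
        | p =>
          obtain ⟨b', hb'⟩ := ih false
          refine ⟨b', ?_⟩
          have := Tr.Run.cons (T := rhoTr A) (p := b) (q := false) (x := some Sk.p)
            (y := some (if b then Sum.inl Sk.p else Sum.inr true))
            (Or.inr (Or.inl ⟨rfl, rfl, rfl⟩)) hb'
          cases b <;> exact this
        | q =>
          obtain ⟨b', hb'⟩ := ih false
          refine ⟨b', ?_⟩
          have := Tr.Run.cons (T := rhoTr A) (p := b) (q := false) (x := some Sk.q)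
            (y := some (if b then Sum.inl Sk.q else Sum.inr false))
            (Or.inr (Or.inr (Or.inl ⟨rfl, rfl, rfl⟩))) hb'
          cases b <;> exact this
        | y a =>
          obtain ⟨b', hb'⟩ := ih false
          refine ⟨b', ?_⟩
          have := Tr.Run.cons (T := rhoTr A) (p := b) (q := false) (x := some (Sk.y a))
            (y := some (Sum.inl (Sk.y a)))
            (Or.inr (Or.inr (Or.inr ⟨a, rfl, rfl, rfl⟩))) hb'
          cases b <;> exact this
    obtain ⟨b', hb'⟩ := key w false
    exact ⟨false, b', rfl, trivial, hb'⟩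

/-- the image of the generator -/
def N1 (K : Language A) : Language (Sk A ⊕ Bool) := {v | ∃ w, E K false 0 w ∧ v = rho false w}

theorem inCone_N1 [Fintype A] (K : Language A) : InCone (Lg K) (N1 K) := by
  apply InCone_of_tr (Lg K) (rhoTr A)
  intro v
  constructor
  · rintro ⟨w, hw, h⟩
    exact ⟨w, hw, (rhoTr_rel w v).2 h⟩
  · rintro ⟨w, hw, h⟩
    exact ⟨w, hw, (rhoTr_rel w v).1 h⟩

theorem rho_rep_p (n : ℕ) (w : List (Sk A)) :
    rho false (rep n (mp 0) ++ w) = List.replicate n (Sum.inr true) ++ rho false w := by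
  induction n with
  | zero => rfl
  | succ n ih =>
    rw [rep_succ, List.replicate_succ, List.append_assoc, List.cons_append, ← ih]
    rfl

theorem rho_rep_q (n : ℕ) (w : List (Sk A)) :
    rho false (rep n (mq 0) ++ w) = List.replicate n (Sum.inr false) ++ rho false w := by
  induction n with
  | zero => rfl
  | succ n ih =>
    rw [rep_succ, List.replicate_succ, List.append_assoc, List.cons_append, ← ih]
    rfl

theorem rho_kap (rest F : List (Sk A)) :
    (chk 0 false 0 F → rho false (kap F ++ rest) = F.map Sum.inl ++ rho false rest) ∧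
    (∀ k, chk 0 false (k + 1) F → rho true (kap F ++ rest) =
      Sum.inl Sk.s :: F.map Sum.inl ++ rho false rest) := by
  induction F with
  | nil => exact ⟨fun _ => rfl, fun k h => by simp [chk] at h⟩
  | cons a F ih =>
    cases a with
    | s =>
      refine ⟨fun h => ?_, fun k h => ?_⟩
      · rw [kap_cons]
        show rho true (kap F ++ rest) = _
        rw [ih.2 0 h]; rfl
      · rw [kap_cons]
        show Sum.inl Sk.s :: rho true (kap F ++ rest) = _
        rw [ih.2 (k + 1) h]; rfl
    | p =>
      refine ⟨fun h => ?_, fun k h => ?_⟩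
      · rw [kap_cons]
        show Sum.inl Sk.p :: rho false (kap F ++ rest) = _
        rw [ih.1 h.2]; rfl
      · rw [kap_cons]
        show Sum.inl Sk.s :: Sum.inl Sk.p :: rho false (kap F ++ rest) = _
        rw [ih.1 h.2]; rfl
    | q =>
      refine ⟨fun h => ?_, fun k h => ?_⟩
      · rw [kap_cons]
        show Sum.inl Sk.q :: rho false (kap F ++ rest) = _
        rw [ih.1 h.2]; rfl
      · rw [kap_cons]
        show Sum.inl Sk.s :: Sum.inl Sk.q :: rho false (kap F ++ rest) = _
        rw [ih.1 h.2]; rfl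
    | y a =>
      refine ⟨fun h => ?_, fun k h => ?_⟩
      · rw [kap_cons]
        show Sum.inl (Sk.y a) :: rho false (kap F ++ rest) = _
        rw [ih.1 h.2]; rfl
      · exact absurd h.1.2 (by omega)

/-- the sequences of nested words of the generator -/
inductive Sf (K : Language A) : List (Sk A ⊕ Bool) → Prop
  | nil : Sf K []
  | cons {n : ℕ} {F : List (Sk A)} {v : List (Sk A ⊕ Bool)} : 1 ≤ n → F ∈ Lg K → Sf K v →
      Sf K (List.replicate n (Sum.inr true) ++ (F.map Sum.inl ++
        (List.replicate n (Sum.inr false) ++ v)))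

theorem rho_node {K : Language A} (n : ℕ) (F G : List (Sk A)) (hF : F ∈ Lg K) :
    rho false (rep n (mp 0) ++ (kap F ++ (rep n (mq 0) ++ G))) =
      List.replicate n (Sum.inr true) ++ (F.map Sum.inl ++
        (List.replicate n (Sum.inr false) ++ rho false G)) := by
  rw [rho_rep_p, (rho_kap _ F).1 (chk_of_E hF), rho_rep_q]

theorem Sf_of_E {K : Language A} {w : List (Sk A)} (h : E K true 0 w) : Sf K (rho false w) := by
  generalize hb : true = b at h
  generalize hl : 0 = l at h
  induction h with
  | leaf _ => exact absurd hb (by simp)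
  | word _ => exact absurd hb (by simp)
  | up _ _ => exact absurd hb (by simp)
  | nil => exact Sf.nil
  | @node l n F G hn hF hG _ ih =>
    subst hl
    obtain ⟨F', rfl, hF'⟩ := E_unkap hF
    rw [rho_node n F' G hF']
    exact Sf.cons hn hF' (ih rfl rfl)

theorem E_of_Sf {K : Language A} {v : List (Sk A ⊕ Bool)} (h : Sf K v) :
    ∃ w, E K true 0 w ∧ v = rho false w := by
  induction h with
  | nil => exact ⟨[], E.nil, rfl⟩
  | @cons n F v hn hF _ ih =>
    obtain ⟨G, hG, rfl⟩ := ih
    exact ⟨_, E.node hn (E_kap hF) hG, (rho_node n F G hF).symm⟩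

/-- empty, or starting with a marker -/
def Hd (v : List (Sk A ⊕ Bool)) : Prop := v = [] ∨ ∃ v', v = Sum.inr true :: v'

theorem Sf_hd {K : Language A} {v : List (Sk A ⊕ Bool)} (h : Sf K v) : Hd v := by
  cases h with
  | nil => exact Or.inl rfl
  | @cons n F v hn _ _ =>
    obtain ⟨n, rfl⟩ : ∃ n', n = n' + 1 := ⟨n - 1, by omega⟩
    exact Or.inr ⟨_, by rw [List.replicate_succ, List.cons_append]⟩

/-- words of `N1` starting with a marker -/
theorem mem_N1 (K : Language A) (v : List (Sk A ⊕ Bool)) (hv : Hd v) : v ∈ N1 K ↔ Sf K v := by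
  constructor
  · rintro ⟨w, hw, rfl⟩
    cases hw with
    | leaf h =>
      rcases w with _ | ⟨a, w⟩
      · exact Sf.nil
      · cases a with
        | p => simp [chk] at h
        | q => simp [chk] at h
        | s =>
          rcases w with _ | ⟨a, w⟩
          · exact Sf.nil
          · rcases hv with hv | ⟨v', hv⟩
            · cases a <;> simp [rho] at hv
            · cases a <;> simp [rho] at hv
        | y a => simp [chk] at h
    | @word _ u h =>
      rcases u with _ | ⟨a, u⟩
      · exact Sf.nil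
      · rcases hv with hv | ⟨v', hv⟩ <;> simp [rho] at hv
    | up h => exact Sf_of_E h
  · intro h
    obtain ⟨w, hw, rfl⟩ := E_of_Sf h
    exact ⟨w, E.up hw, rfl⟩

theorem nil_mem_Lg (K : Language A) : ([] : List (Sk A)) ∈ Lg K := E.leaf (by simp [chk])

theorem rep_hd : ∀ (j k : ℕ) (v v' : List (Sk A ⊕ Bool)), Hd v → Hd v' →
    List.replicate j (Sum.inr false) ++ v = List.replicate k (Sum.inr false) ++ v' →
    j = k ∧ v = v' := by
  intro j
  induction j with
  | zero =>
    intro k v v' hv hv' h
    rcases k with _ | k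
    · exact ⟨rfl, by simpa using h⟩
    · exfalso
      rcases hv with rfl | ⟨u, rfl⟩
      · simp [List.replicate_succ] at h
      · simp [List.replicate_succ] at h
  | succ j ih =>
    intro k v v' hv hv' h
    rcases k with _ | k
    · exfalso
      rcases hv' with rfl | ⟨u, rfl⟩
      · simp [List.replicate_succ] at h
      · simp [List.replicate_succ] at h
    · rw [List.replicate_succ, List.replicate_succ, List.cons_append, List.cons_append,
        List.cons.injEq] at h
      obtain ⟨rfl, h2⟩ := ih k v v' hv hv' h.2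
      exact ⟨rfl, h2⟩

/-- unique decomposition -/
theorem Sf_parse {K : Language A} (n m : ℕ) (hn : 1 ≤ n) (hm : 1 ≤ m) (f : List (Sk A))
    (v : List (Sk A ⊕ Bool)) (hv : Hd v)
    (h : Sf K (List.replicate n (Sum.inr true) ++ (f.map Sum.inl ++
      (List.replicate m (Sum.inr false) ++ v)))) : n = m ∧ f ∈ Lg K ∧ Sf K v := by
  obtain ⟨n, rfl⟩ : ∃ n', n = n' + 1 := ⟨n - 1, by omega⟩
  obtain ⟨m, rfl⟩ : ∃ n', m = n' + 1 := ⟨m - 1, by omega⟩
  generalize hz : List.replicate (n + 1) (Sum.inr true) ++ (f.map Sum.inl ++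
      (List.replicate (m + 1) (Sum.inr false) ++ v)) = z at h
  cases h with
  | nil => simp [List.replicate_succ] at hz
  | @cons k F v0 hk hF hv0 =>
    obtain ⟨k, rfl⟩ : ∃ n', k = n' + 1 := ⟨k - 1, by omega⟩
    have h1 : n + 1 = k + 1 := by
      apply rep_count (n + 1) (k + 1) f F (List.replicate (m + 1) (Sum.inr false) ++ v)
        (List.replicate (k + 1) (Sum.inr false) ++ v0)
        ⟨List.replicate m (Sum.inr false) ++ v, by rw [List.replicate_succ, List.cons_append]⟩
        ⟨List.replicate k (Sum.inr false) ++ v0, by rw [List.replicate_succ, List.cons_append]⟩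
      exact hz
    obtain rfl : n = k := by omega
    have h3 := List.append_cancel_left hz
    rw [List.replicate_succ (n := m), List.replicate_succ (n := n), List.cons_append,
      List.cons_append] at h3
    obtain ⟨rfl, -, h4⟩ := split_marker _ _ _ _ _ _ h3
    obtain ⟨rfl, rfl⟩ := rep_hd m n v v0 hv (Sf_hd hv0) h4
    exact ⟨rfl, hF, hv0⟩

theorem Sf_one {K : Language A} (f : List (Sk A)) (v : List (Sk A ⊕ Bool)) (hv : Hd v) :
    Sf K (Sum.inr true :: (f.map Sum.inl ++ Sum.inr false :: v)) ↔ f ∈ Lg K ∧ Sf K v := by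
  constructor
  · intro h
    exact (Sf_parse 1 1 le_rfl le_rfl f v hv h).2
  · rintro ⟨h1, h2⟩
    exact Sf.cons (n := 1) le_rfl h1 h2

/-- a word `P f Q P g Q` -/
theorem mem_N1_pair (K : Language A) (f g : List (Sk A)) :
    (Sum.inr true :: (f.map Sum.inl ++ Sum.inr false :: Sum.inr true :: (g.map Sum.inl ++
      [Sum.inr false])) ∈ N1 K) ↔ f ∈ Lg K ∧ g ∈ Lg K := by
  rw [mem_N1 K _ (Or.inr ⟨_, rfl⟩), Sf_one f _ (Or.inr ⟨_, rfl⟩), Sf_one g [] (Or.inl rfl)]
  constructor
  · rintro ⟨h1, h2, _⟩
    exact ⟨h1, h2⟩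
  · rintro ⟨h1, h2⟩
    exact ⟨h1, h2, Sf.nil⟩

/-- a word `P f_1 Q P f_2 Q ...` -/
theorem mem_N1_list (K : Language A) (L : List (List (Sk A))) :
    (L.flatMap (fun f => Sum.inr true :: (f.map Sum.inl ++ [Sum.inr false])) ∈ N1 K) ↔
      ∀ f ∈ L, f ∈ Lg K := by
  have hhd : ∀ L : List (List (Sk A)), Hd (L.flatMap
      (fun f => (Sum.inr true : Sk A ⊕ Bool) :: (f.map Sum.inl ++ [Sum.inr false]))) := by
    intro L
    rcases L with _ | ⟨f, L⟩
    · exact Or.inl rfl
    · exact Or.inr ⟨_, by rw [List.flatMap_cons, List.cons_append]⟩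
  rw [mem_N1 K _ (hhd L)]
  induction L with
  | nil =>
    constructor
    · intro _ f hf
      simp at hf
    · intro _
      exact Sf.nil
  | cons f L ih =>
    have e : (f :: L).flatMap
        (fun f => (Sum.inr true : Sk A ⊕ Bool) :: (f.map Sum.inl ++ [Sum.inr false])) =
        Sum.inr true :: (f.map Sum.inl ++ Sum.inr false :: L.flatMap
          (fun f => (Sum.inr true : Sk A ⊕ Bool) :: (f.map Sum.inl ++ [Sum.inr false]))) := by
      rw [List.flatMap_cons]
      simp
    rw [e, Sf_one f _ (hhd L)]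
    constructor
    · rintro ⟨h1, h2⟩ g hg
      rcases List.mem_cons.1 hg with rfl | hg
      · exact h1
      · exact ih.1 h2 g hg
    · intro h
      exact ⟨h f List.mem_cons_self, ih.2 fun g hg => h g (List.mem_cons_of_mem _ hg)⟩

/-- a word `P^n f Q^m` -/
theorem mem_N1_two (K : Language A) (n m : ℕ) (hn : 1 ≤ n) (hm : 1 ≤ m) (f : List (Sk A)) :
    (List.replicate n (Sum.inr true) ++ (f.map Sum.inl ++ List.replicate m (Sum.inr false)) ∈
      N1 K) ↔ f ∈ Lg K ∧ n = m := by
  have hhd : Hd (List.replicate n (Sum.inr true) ++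
      (f.map Sum.inl ++ List.replicate m (Sum.inr false)) : List (Sk A ⊕ Bool)) := by
    obtain ⟨n, rfl⟩ : ∃ n', n = n' + 1 := ⟨n - 1, by omega⟩
    exact Or.inr ⟨_, by rw [List.replicate_succ, List.cons_append]⟩
  rw [mem_N1 K _ hhd]
  constructor
  · intro h
    have h' := Sf_parse n m hn hm f [] (Or.inl rfl) (by simpa using h)
    exact ⟨h'.2.1, h'.1⟩
  · rintro ⟨hf, rfl⟩
    have := Sf.cons hn hf (Sf.nil (K := K))
    simpa using this

/-- the cone of the generator is closed under product -/
theorem cone_mul [Fintype A] {K : Language A} {Y : Type} [Fintype Y] {N N' : Language Y}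
    (h : InCone (Lg K) N) (h' : InCone (Lg K) N') :
    InCone (Lg K) {x | ∃ a ∈ N, ∃ b ∈ N', x = a ++ b} := by
  obtain ⟨T, hT⟩ := h.exists_tr
  obtain ⟨S, hS⟩ := h'.exists_tr
  refine (inCone_N1 K).trans (InCone_of_tr (N1 K)
    (TrOps.cat (TrOps.one (Sum.inr true) none) (TrOps.cat (TrOps.map T Sum.inl id)
      (TrOps.cat (TrOps.one (Sum.inr false) none) (TrOps.cat (TrOps.one (Sum.inr true) none)
        (TrOps.cat (TrOps.map S Sum.inl id) (TrOps.one (Sum.inr false) none)))))) _ ?_)
  intro x
  simp only [TrOps.cat_rel, TrOps.one_rel, TrOps.map_rel]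
  constructor
  · rintro ⟨a, ha, b, hb, rfl⟩
    obtain ⟨f, hf, hfa⟩ := (hT a).1 ha
    obtain ⟨g, hg, hgb⟩ := (hS b).1 hb
    refine ⟨_, (mem_N1_pair K f g).2 ⟨hf, hg⟩, _, _, _, _, ⟨rfl, rfl⟩, ⟨_, _, _, _,
      ⟨f, a, hfa, rfl, rfl⟩, ⟨_, _, _, _, ⟨rfl, rfl⟩, ⟨_, _, _, _, ⟨rfl, rfl⟩, ⟨_, _, _, _,
      ⟨g, b, hgb, rfl, rfl⟩, ⟨rfl, rfl⟩, rfl, rfl⟩, rfl, rfl⟩, rfl, rfl⟩, rfl, rfl⟩, ?_, ?_⟩
    · simp
    · simp
  · rintro ⟨w, hw, _, _, _, _, ⟨rfl, rfl⟩, ⟨_, _, _, _, ⟨f, a, hfa, rfl, rfl⟩,
      ⟨_, _, _, _, ⟨rfl, rfl⟩, ⟨_, _, _, _, ⟨rfl, rfl⟩, ⟨_, _, _, _,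
      ⟨g, b, hgb, rfl, rfl⟩, ⟨rfl, rfl⟩, rfl, rfl⟩, rfl, rfl⟩, rfl, rfl⟩, rfl, rfl⟩, rfl, rfl⟩
    have h1 := (mem_N1_pair K f g).1 (by simpa using hw)
    exact ⟨a, (hT a).2 ⟨f, h1.1, hfa⟩, b, (hS b).2 ⟨g, h1.2, hgb⟩, by simp⟩

/-- the cone of the generator is translatable -/
theorem cone_trans [Fintype A] {K : Language A} {Y Y' : Type} [Fintype Y'] {N : Language Y}
    (h : InCone (Lg K) N) (ι : Y → Y') (a b : Y') : InCone (Lg K) {x | ∃ n, 1 ≤ n ∧ ∃ f ∈ N,
      x = List.replicate n a ++ f.map ι ++ List.replicate n b} := by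
  obtain ⟨T, hT⟩ := h.exists_tr
  refine (inCone_N1 K).trans (InCone_of_tr (N1 K)
    (TrOps.cat (TrOps.plus (Sum.inr true) a) (TrOps.cat (TrOps.map T Sum.inl ι)
      (TrOps.plus (Sum.inr false) b))) _ ?_)
  intro x
  simp only [TrOps.cat_rel, TrOps.plus_rel, TrOps.map_rel]
  constructor
  · rintro ⟨n, hn, c, hc, rfl⟩
    obtain ⟨f, hf, hfc⟩ := (hT c).1 hc
    exact ⟨_, (mem_N1_two K n n hn hn f).2 ⟨hf, rfl⟩, _, _, _, _, ⟨n, hn, rfl, rfl⟩,
      ⟨_, _, _, _, ⟨f, c, hfc, rfl, rfl⟩, ⟨n, hn, rfl, rfl⟩, rfl, rfl⟩, rfl, by simp⟩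
  · rintro ⟨w, hw, _, _, _, _, ⟨n, hn, rfl, rfl⟩, ⟨_, _, _, _, ⟨f, c, hfc, rfl, rfl⟩,
      ⟨m, hm, rfl, rfl⟩, rfl, rfl⟩, rfl, rfl⟩
    obtain ⟨h1, rfl⟩ := (mem_N1_two K n m hn hm f).1 hw
    exact ⟨n, hn, c, (hT c).2 ⟨f, h1, hfc⟩, by simp⟩

/-! ### iteration -/

/-- iteration of a transducer -/
def starTr {X Y : Type} (T : Tr X Y) : Tr X Y where
  σ := Option T.σ
  fin := by
    have := T.fin
    exact inferInstance
  step := fun p x y q => match p, q with
    | none, none => False
    | none, some q => x = none ∧ y = none ∧ T.start q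
    | some p, some q => T.step p x y q
    | some p, none => x = none ∧ y = none ∧ T.acc p
  start := fun p => p = none
  acc := fun p => p = none

theorem starTr_rel {X Y : Type} (T : Tr X Y) (u : List X) (v : List Y) :
    (starTr T).rel u v ↔ ∃ L : List (List X × List Y), (∀ p ∈ L, T.rel p.1 p.2) ∧
      u = L.flatMap Prod.fst ∧ v = L.flatMap Prod.snd := by
  constructor
  · rintro ⟨p, q, hp, hq, h⟩
    have hp' : p = none := hp
    have hq' : q = none := hq
    have key : ∀ {p q : (starTr T).σ} {u : List X} {v : List Y}, (starTr T).Run p u v q →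
        q = none →
        (p = none → ∃ L : List (List X × List Y), (∀ p ∈ L, T.rel p.1 p.2) ∧
          u = L.flatMap Prod.fst ∧ v = L.flatMap Prod.snd) ∧
        (∀ s, p = some s → ∃ (u1 : List X) (v1 : List Y) (t : T.σ) (L : List (List X × List Y)),
          T.Run s u1 v1 t ∧ T.acc t ∧ (∀ p ∈ L, T.rel p.1 p.2) ∧
          u = u1 ++ L.flatMap Prod.fst ∧ v = v1 ++ L.flatMap Prod.snd) := by
      intro p q u v h
      induction h with
      | nil p =>
        intro hq
        refine ⟨fun _ => ⟨[], by simp, rfl, rfl⟩, fun s hs => ?_⟩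
        rw [hq] at hs
        exact absurd hs (by simp)
      | @cons p q r x y u v hs _ ih =>
        intro hr
        have ih' := ih hr
        rcases p with _ | p
        · refine ⟨fun _ => ?_, fun s hs => absurd hs (by simp)⟩
          rcases q with _ | q
          · exact hs.elim
          · obtain ⟨rfl, rfl, hst⟩ := hs
            obtain ⟨u1, v1, t, L, h1, h2, h3, rfl, rfl⟩ := ih'.2 q rfl
            refine ⟨(u1, v1) :: L, ?_, by simp, by simp⟩
            intro p hp
            rcases List.mem_cons.1 hp with rfl | hp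
            · exact ⟨q, t, hst, h2, h1⟩
            · exact h3 p hp
        · refine ⟨fun h => absurd h (by simp), fun s hsp => ?_⟩
          obtain rfl : p = s := Option.some.inj hsp
          rcases q with _ | q
          · obtain ⟨rfl, rfl, hacc⟩ := hs
            obtain ⟨L, h3, rfl, rfl⟩ := ih'.1 rfl
            exact ⟨[], [], p, L, Tr.Run.nil p, hacc, h3, by simp, by simp⟩
          · obtain ⟨u1, v1, t, L, h1, h2, h3, rfl, rfl⟩ := ih'.2 q rfl
            exact ⟨_, _, t, L, Tr.Run.cons hs h1, h2, h3, by simp, by simp⟩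
    exact (key h hq').1 hp'
  · rintro ⟨L, hL, rfl, rfl⟩
    refine ⟨none, none, rfl, rfl, ?_⟩
    have hlift : ∀ {p q : T.σ} {u : List X} {v : List Y}, T.Run p u v q →
        (starTr T).Run (some p) u v (some q) := by
      intro p q u v h
      induction h with
      | nil p => exact Tr.Run.nil _
      | @cons p q r x y u v hs _ ih =>
        exact Tr.Run.cons (T := starTr T) (p := some p) (q := some q) hs ih
    induction L with
    | nil => exact Tr.Run.nil _
    | cons a L ih =>
      obtain ⟨p, q, hp, hq, h⟩ := hL a List.mem_cons_self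
      have h1 : (starTr T).Run none a.1 a.2 (some q) := by
        have := Tr.Run.cons (T := starTr T) (p := none) (q := some p) (x := none) (y := none)
          ⟨rfl, rfl, hp⟩ (hlift h)
        simpa using this
      have h2 : (starTr T).Run (some q) (L.flatMap Prod.fst) (L.flatMap Prod.snd) none := by
        have := Tr.Run.cons (T := starTr T) (p := some q) (q := none) (x := none) (y := none)
          ⟨rfl, rfl, hq⟩ (ih fun p hp => hL p (List.mem_cons_of_mem _ hp))
        simpa using this
      have h3 := h1.trans h2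
      simpa using h3

/-- the cone of the generator is closed under iteration -/
theorem cone_star [Fintype A] {K : Language A} {Y : Type} [Fintype Y] {N : Language Y}
    (h : InCone (Lg K) N) : InCone (Lg K) {x | ∃ L : List (List Y), (∀ a ∈ L, a ∈ N) ∧
      x = L.flatten} := by
  obtain ⟨T, hT⟩ := h.exists_tr
  refine (inCone_N1 K).trans (InCone_of_tr (N1 K)
    (starTr (TrOps.cat (TrOps.one (Sum.inr true) none) (TrOps.cat (TrOps.map T Sum.inl id)
      (TrOps.one (Sum.inr false) none)))) _ ?_)
  intro x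
  simp only [starTr_rel, TrOps.cat_rel, TrOps.one_rel, TrOps.map_rel]
  constructor
  · rintro ⟨L, hL, rfl⟩
    choose! f hf using fun (a : List Y) (ha : a ∈ L) => (hT a).1 (hL a ha)
    refine ⟨(L.map f).flatMap (fun f => Sum.inr true :: (f.map Sum.inl ++ [Sum.inr false])),
      (mem_N1_list K _).2 ?_, L.map (fun a => (Sum.inr true :: ((f a).map Sum.inl ++
        [Sum.inr false]), a)), ?_, ?_, ?_⟩
    · intro g hg
      obtain ⟨a, ha, rfl⟩ := List.mem_map.1 hg
      exact (hf a ha).1
    · intro p hp
      obtain ⟨a, ha, rfl⟩ := List.mem_map.1 hp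
      exact ⟨[Sum.inr true], (f a).map Sum.inl ++ [Sum.inr false], [], a, ⟨rfl, rfl⟩,
        ⟨(f a).map Sum.inl, [Sum.inr false], a, [], ⟨f a, a, (hf a ha).2, rfl, by simp⟩,
        ⟨rfl, rfl⟩, rfl, by simp⟩, by simp, by simp⟩
    · rw [List.flatMap_map, List.flatMap_map]
    · rw [List.flatMap_map]
      simp [List.flatMap, List.map_id']
  · rintro ⟨w, hw, L, hL, rfl, rfl⟩
    have key : ∀ L : List (List (Sk A ⊕ Bool) × List Y), (∀ p ∈ L, ∃ u1 u2 v1 v2,
        (u1 = [Sum.inr true] ∧ v1 = (none : Option Y).toList) ∧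
        (∃ u3 u4 v3 v4, (∃ a b, T.rel a b ∧ u3 = a.map Sum.inl ∧ v3 = b.map id) ∧
          (u4 = [Sum.inr false] ∧ v4 = (none : Option Y).toList) ∧ u2 = u3 ++ u4 ∧
            v2 = v3 ++ v4) ∧ p.1 = u1 ++ u2 ∧ p.2 = v1 ++ v2) →
        ∃ M : List (List (Sk A) × List Y), (∀ p ∈ M, T.rel p.1 p.2) ∧
          L.flatMap Prod.fst = (M.map Prod.fst).flatMap
            (fun f => Sum.inr true :: (f.map Sum.inl ++ [Sum.inr false])) ∧
          L.flatMap Prod.snd = (M.map Prod.snd).flatten := by
      intro L
      induction L with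
      | nil => intro _; exact ⟨[], by simp, rfl, rfl⟩
      | cons p L ih =>
        intro h
        obtain ⟨M, h1, h2, h3⟩ := ih fun q hq => h q (List.mem_cons_of_mem _ hq)
        obtain ⟨u1, u2, v1, v2, ⟨rfl, rfl⟩, ⟨u3, u4, v3, v4, ⟨a, b, hab, rfl, rfl⟩, ⟨rfl, rfl⟩,
          rfl, rfl⟩, h4, h5⟩ := h p List.mem_cons_self
        refine ⟨(a, b) :: M, ?_, ?_, ?_⟩
        · intro q hq
          rcases List.mem_cons.1 hq with rfl | hq
          · exact hab
          · exact h1 q hq
        · rw [List.flatMap_cons, h2, h4]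
          simp
        · rw [List.flatMap_cons, h3, h5]
          simp
    obtain ⟨M, h1, h2, h3⟩ := key L (by
      intro p hp
      obtain ⟨u1, u2, v1, v2, h1, ⟨u3, u4, v3, v4, h2, h3, h4, h5⟩, h6, h7⟩ := hL p hp
      exact ⟨u1, u2, v1, v2, h1, ⟨u3, u4, v3, v4, h2, h3, h4, h5⟩, h6, h7⟩)
    rw [h2] at hw
    have h4 := (mem_N1_list K _).1 hw
    refine ⟨M.map Prod.snd, ?_, h3⟩
    intro b hb
    obtain ⟨p, hp, rfl⟩ := List.mem_map.1 hb
    exact (hT _).2 ⟨p.1, h4 _ (List.mem_map.2 ⟨p, hp, rfl⟩), h1 p hp⟩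

/-! ### the given language is in the cone -/

/-- the identity on the words of letters `y a`, which are moreover nonempty unless `P` holds -/
def selTr (A : Type) (P : Prop) : Tr (Sk A) A where
  σ := Bool
  fin := inferInstance
  step := fun _ x y b' => b' = true ∧ ∃ a, x = some (Sk.y a) ∧ y = some a
  start := fun b => b = false
  acc := fun b => b = true ∨ P

theorem selTr_rel (P : Prop) (w : List (Sk A)) (v : List A) :
    (selTr A P).rel w v ↔ w = v.map Sk.y ∧ (v ≠ [] ∨ P) := by
  constructor
  · rintro ⟨b, b', hb, hb', h⟩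
    have key : ∀ {b b' : (selTr A P).σ} {w : List (Sk A)} {v : List A},
        (selTr A P).Run b w v b' → w = v.map Sk.y ∧ (v = [] → b = b') := by
      intro b b' w v h
      induction h with
      | nil b => exact ⟨rfl, fun _ => rfl⟩
      | cons hs _ ih =>
        obtain ⟨_, a, rfl, rfl⟩ := hs
        obtain ⟨rfl, _⟩ := ih
        exact ⟨rfl, fun h => absurd h (by simp)⟩
    obtain ⟨h1, h2⟩ := key h
    refine ⟨h1, ?_⟩
    by_cases hv : v = []
    · right
      have hbb := h2 hv
      have hb1 : b = false := hb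
      rcases hb' with hb2 | hb2
      · rw [← hbb, hb1] at hb2
        exact absurd hb2 Bool.false_ne_true
      · exact hb2
    · exact Or.inl hv
  · rintro ⟨rfl, h⟩
    have key : ∀ (v : List A) (b : (selTr A P).σ), v ≠ [] →
        (selTr A P).Run b (v.map Sk.y) v true := by
      intro v
      induction v with
      | nil => intro b h; exact absurd rfl h
      | cons a v ih =>
        intro b _
        by_cases hv : v = []
        · subst hv
          exact Tr.Run.cons (T := selTr A P) (p := b) (q := true) (x := some (Sk.y a))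
            (y := some a) ⟨rfl, a, rfl, rfl⟩ (Tr.Run.nil _)
        · exact Tr.Run.cons (T := selTr A P) (p := b) (q := true) (x := some (Sk.y a))
            (y := some a) ⟨rfl, a, rfl, rfl⟩ (ih true hv)
    by_cases hv : v = []
    · subst hv
      have hP : P := by
        rcases h with h | h
        · exact absurd rfl h
        · exact h
      exact ⟨false, false, rfl, Or.inr hP, Tr.Run.nil _⟩
    · exact ⟨false, true, rfl, Or.inl rfl, key v false hv⟩

/-- the words of letters `y a` in the generator -/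
theorem word_mem_Lg (K : Language A) (v : List A) (hv : v ≠ []) :
    v.map Sk.y ∈ Lg K ↔ v ∈ K := by
  constructor
  · intro h
    have h' : E K false 0 (v.map Sk.y) := h
    generalize hw : v.map Sk.y = w at h'
    cases h' with
    | leaf h1 =>
      exfalso
      subst hw
      rcases v with _ | ⟨a, v⟩
      · exact hv rfl
      · exact absurd (show true = false from h1.1.1) (by simp)
    | @word _ u hu =>
      have : v = u := List.map_injective_iff.2 y_inj hw
      rw [this]; exact hu
    | up h' =>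
      exfalso
      cases h' with
      | nil => exact hv (List.map_eq_nil_iff.1 hw)
      | @node _ n F G hn _ _ =>
        obtain ⟨n, rfl⟩ : ∃ n', n = n' + 1 := ⟨n - 1, by omega⟩
        rw [rep_succ] at hw
        rcases v with _ | ⟨a, v⟩
        · exact hv rfl
        · simp [mp] at hw
  · intro h
    exact E.word h

theorem inCone_self [Fintype A] (K : Language A) : InCone (Lg K) K := by
  apply InCone_of_tr (Lg K) (selTr A ([] ∈ K))
  intro v
  simp only [selTr_rel]
  constructor
  · intro h
    refine ⟨v.map Sk.y, E.word h, rfl, ?_⟩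
    by_cases hv : v = []
    · right; rw [← hv]; exact h
    · exact Or.inl hv
  · rintro ⟨w, hw, rfl, h⟩
    by_cases hv : v = []
    · rcases h with h | h
      · exact absurd hv h
      · rw [hv]; exact h
    · exact (word_mem_Lg K v hv).1 hw

end Pool.Agent.Y502.PC
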