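import Pool.Agent.Y502.PC.Cone

set_option autoImplicit false

/-!
# Unions, and the number of languages in a principal cone
-/

namespace Pool.Agent.Y502.PC

open Pool.Agent.Helper288.Cone

/-- the union of two transducers -/
def sumTr {X Y : Type} (T S : Tr X Y) : Tr X Y where
  σ := T.σ ⊕ S.σ
  fin := by
    have := T.fin
    have := S.fin
    exact inferInstance
  step := fun p x y q => match p, q with
    | Sum.inl p, Sum.inl q => T.step p x y q
    | Sum.inr p, Sum.inr q => S.step p x y q
    | _, _ => False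
  start := fun p => match p with
    | Sum.inl p => T.start p
    | Sum.inr p => S.start p
  acc := fun p => match p with
    | Sum.inl p => T.acc p
    | Sum.inr p => S.acc p

theorem sumTr_rel {X Y : Type} (T S : Tr X Y) (u : List X) (v : List Y) :
    (sumTr T S).rel u v ↔ T.rel u v ∨ S.rel u v := by
  constructor
  · rintro ⟨p, q, hp, hq, h⟩
    have key : ∀ {p q : (sumTr T S).σ} {u : List X} {v : List Y}, (sumTr T S).Run p u v q →
        (∀ a, p = Sum.inl a → ∃ b, q = Sum.inl b ∧ T.Run a u v b) ∧
        (∀ a, p = Sum.inr a → ∃ b, q = Sum.inr b ∧ S.Run a u v b) := by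
      intro p q u v h
      induction h with
      | nil p => exact ⟨fun a ha => ⟨a, ha, Tr.Run.nil a⟩, fun a ha => ⟨a, ha, Tr.Run.nil a⟩⟩
      | @cons p q r x y u v hs _ ih =>
        refine ⟨fun a ha => ?_, fun a ha => ?_⟩
        · subst ha
          rcases q with q | q
          · obtain ⟨b, hb, hr⟩ := ih.1 q rfl
            exact ⟨b, hb, Tr.Run.cons hs hr⟩
          · exact hs.elim
        · subst ha
          rcases q with q | q
          · exact hs.elim
          · obtain ⟨b, hb, hr⟩ := ih.2 q rfl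
            exact ⟨b, hb, Tr.Run.cons hs hr⟩
    rcases p with p | p
    · obtain ⟨b, rfl, hr⟩ := (key h).1 p rfl
      exact Or.inl ⟨p, b, hp, hq, hr⟩
    · obtain ⟨b, rfl, hr⟩ := (key h).2 p rfl
      exact Or.inr ⟨p, b, hp, hq, hr⟩
  · rintro (⟨p, q, hp, hq, h⟩ | ⟨p, q, hp, hq, h⟩)
    · refine ⟨Sum.inl p, Sum.inl q, hp, hq, ?_⟩
      clear hp hq
      induction h with
      | nil p => exact Tr.Run.nil _
      | @cons p q r x y u v hs _ ih =>
        exact Tr.Run.cons (T := sumTr T S) (p := Sum.inl p) (q := Sum.inl q) hs ih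
    · refine ⟨Sum.inr p, Sum.inr q, hp, hq, ?_⟩
      clear hp hq
      induction h with
      | nil p => exact Tr.Run.nil _
      | @cons p q r x y u v hs _ ih =>
        exact Tr.Run.cons (T := sumTr T S) (p := Sum.inr p) (q := Sum.inr q) hs ih

theorem cone_union {X Y : Type} [Fintype X] [Fintype Y] {L : Language X} {N N' : Language Y}
    (h : InCone L N) (h' : InCone L N') : InCone L (N + N') := by
  obtain ⟨T, hT⟩ := h.exists_tr
  obtain ⟨S, hS⟩ := h'.exists_tr
  apply InCone_of_tr L (sumTr T S)
  intro v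
  rw [Language.mem_add, hT, hS]
  simp only [sumTr_rel]
  constructor
  · rintro (⟨u, h1, h2⟩ | ⟨u, h1, h2⟩)
    · exact ⟨u, h1, Or.inl h2⟩
    · exact ⟨u, h1, Or.inr h2⟩
  · rintro ⟨u, h1, h2 | h2⟩
    · exact Or.inl ⟨u, h1, h2⟩
    · exact Or.inr ⟨u, h1, h2⟩

theorem inCone_refl {X : Type} [Fintype X] (L : Language X) : InCone L L := by
  apply InCone_of_tr _ (Pool.Agent.H643R2.TrOps.idTr _)
  intro v
  constructor
  · intro h
    exact ⟨v, h, (Pool.Agent.H643R2.TrOps.idTr_rel v v).2 rfl⟩
  · rintro ⟨u, hu, h⟩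
    rw [← (Pool.Agent.H643R2.TrOps.idTr_rel u v).1 h]
    exact hu

instance {n m : ℕ} : Countable (DFA (Fin n) (Fin m)) := by
  have hinj : Function.Injective (fun M : DFA (Fin n) (Fin m) => (M.step, M.start, M.accept)) := by
    rintro ⟨a, b, c⟩ ⟨a', b', c'⟩ h
    simp only [Prod.mk.injEq] at h
    obtain ⟨rfl, rfl, rfl⟩ := h
    rfl
  exact hinj.countable

/-- a code of a language of the cone of `L` -/
def code {X Y : Type} (L : Language X)
    (t : Σ n : ℕ, Σ m : ℕ, (Fin n → List X) × (Fin n → List Y) × DFA (Fin n) (Fin m)) :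
    Language Y :=
  {v | ∃ z ∈ t.2.2.2.2.accepts, z.flatMap t.2.2.1 ∈ L ∧ z.flatMap t.2.2.2.1 = v}

/-- a principal cone contains countably many languages over a fixed alphabet -/
theorem countable_cone {X Y : Type} [Finite X] [Finite Y] (L : Language X) :
    {N : Language Y | InCone L N}.Countable := by
  refine (Set.countable_range (code (Y := Y) L)).mono ?_
  rintro N ⟨Z, hZ, h, g, R, ⟨σ, hσ, M, hM⟩, rfl⟩
  let e := Fintype.equivFin Z
  let f := Fintype.equivFin σ
  refine ⟨⟨Fintype.card Z, Fintype.card σ, h ∘ e.symm, g ∘ e.symm,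
    (DFA.reindex f M).comap e.symm⟩, ?_⟩
  ext v
  constructor
  · rintro ⟨z, hz, h1, h2⟩
    refine ⟨z.map e.symm, ?_, ?_, ?_⟩
    · have h3 : z ∈ ((DFA.reindex f M).comap e.symm).accepts := hz
      rw [DFA.accepts_comap] at h3
      have h4 : z.map e.symm ∈ (DFA.reindex f M).accepts := h3
      rw [DFA.accepts_reindex, hM] at h4
      exact h4
    · rw [List.flatMap_map]
      exact h1
    · rw [List.flatMap_map]
      exact h2
  · rintro ⟨z, hz, h1, h2⟩
    refine ⟨z.map e, ?_, ?_, ?_⟩
    · show z.map e ∈ ((DFA.reindex f M).comap e.symm).accepts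
      rw [DFA.accepts_comap]
      show (z.map e).map e.symm ∈ (DFA.reindex f M).accepts
      rw [DFA.accepts_reindex, hM, List.map_map]
      have : (e.symm : Fin (Fintype.card Z) → Z) ∘ e = id := by
        funext x
        simp
      rw [this, List.map_id]
      exact hz
    · show (z.map e).flatMap (h ∘ e.symm) ∈ L
      rw [List.flatMap_map]
      simpa using h1
    · show (z.map e).flatMap (g ∘ e.symm) = v
      rw [List.flatMap_map]
      simpa using h2

end Pool.Agent.Y502.PC
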