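import Pool.Agent.H643R2.RunLem

set_option autoImplicit false

/-!
# A recursive language with level markers and words of a given language
-/

namespace Pool.Agent.Y502.PC

open Pool.Agent.Helper288.Cone
open Pool.Agent.H643R2.PB
open Pool.Agent.H643R2.RunLem

/-- the three structure letters and the letters of the alphabet `A` -/
inductive Sk (A : Type) : Type
  | p | q | s | y (a : A)

/-- the letters, in a standard type -/
def Sk.toOpt {A : Type} : Sk A → Option (Option (Option A))
  | .p => none
  | .q => some none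
  | .s => some (some none)
  | .y a => some (some (some a))

/-- the inverse map -/
def Sk.ofOpt {A : Type} : Option (Option (Option A)) → Sk A
  | none => .p
  | some none => .q
  | some (some none) => .s
  | some (some (some a)) => .y a

noncomputable instance {A : Type} [Fintype A] : Fintype (Sk A) :=
  Fintype.ofEquiv (Option (Option (Option A))) ⟨Sk.ofOpt, Sk.toOpt,
    fun x => by rcases x with _ | _ | _ | a <;> rfl, fun x => by cases x <;> rfl⟩

variable {A : Type}

theorem y_inj : Function.Injective (Sk.y : A → Sk A) := by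
  intro a b h
  injection h

/-- `chk l b k w`: the word `s^k w` is a product of blocks `s^j p`, `s^j q` with `j ≥ l` and of
letters `y a`, and moreover, if `b` is true, it is empty or starts with a block with
`j ≥ l + 1`. -/
def chk (l : ℕ) : Bool → ℕ → List (Sk A) → Prop
  | _, k, [] => k = 0
  | b, k, Sk.s :: w => chk l b (k + 1) w
  | b, k, Sk.p :: w => (bif b then l + 1 else l) ≤ k ∧ chk l false 0 w
  | b, k, Sk.q :: w => (bif b then l + 1 else l) ≤ k ∧ chk l false 0 w
  | b, k, Sk.y _ :: w => (b = false ∧ k = 0) ∧ chk l false 0 w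

/-- the marker `s^l p` -/
def mp (l : ℕ) : List (Sk A) := List.replicate l Sk.s ++ [Sk.p]

/-- the marker `s^l q` -/
def mq (l : ℕ) : List (Sk A) := List.replicate l Sk.s ++ [Sk.q]

/-- `E K false l` is the language of level `l`, and `E K true l` is the language of the sequences of
nested words of level `l + 1`. -/
inductive E (K : Language A) : Bool → ℕ → List (Sk A) → Prop
  | leaf {l : ℕ} {w : List (Sk A)} : chk l true 0 w → E K false l w
  | word {l : ℕ} {u : List A} : u ∈ K → E K false l (u.map Sk.y)
  | up {l : ℕ} {w : List (Sk A)} : E K true l w → E K false l w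
  | nil {l : ℕ} : E K true l []
  | node {l n : ℕ} {F G : List (Sk A)} : 1 ≤ n → E K false (l + 1) F → E K true l G →
      E K true l (rep n (mp l) ++ (F ++ (rep n (mq l) ++ G)))

theorem E_append {K : Language A} {l : ℕ} {G1 G2 : List (Sk A)} (h1 : E K true l G1)
    (h2 : E K true l G2) : E K true l (G1 ++ G2) := by
  generalize hb : true = b at h1
  induction h1 with
  | leaf _ => exact absurd hb (by simp)
  | word _ => exact absurd hb (by simp)
  | up _ _ => exact absurd hb (by simp)
  | nil => exact h2
  | @node l n F G hn hF _ _ ih =>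
    have := E.node hn hF (ih h2 rfl)
    simpa [List.append_assoc] using this

theorem E_cut {K : Language A} {l : ℕ} {G : List (Sk A)} (h : E K true l G) :
    ∀ zL zR, zL ++ zR = G → (E K true l zL ∧ E K true l zR) ∨
      ∃ G1 c n F d G2, E K true l G1 ∧ 1 ≤ n ∧ E K false (l + 1) F ∧ E K true l G2 ∧
        c ++ d = rep n (mp l) ++ (F ++ rep n (mq l)) ∧ zL = G1 ++ c ∧ zR = d ++ G2 := by
  generalize hb : true = b at h
  induction h with
  | leaf _ => exact absurd hb (by simp)
  | word _ => exact absurd hb (by simp)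
  | up _ _ => exact absurd hb (by simp)
  | nil =>
    intro zL zR hz
    obtain ⟨rfl, rfl⟩ := List.append_eq_nil_iff.1 hz
    exact Or.inl ⟨E.nil, E.nil⟩
  | @node l n F G hn hF hG _ ih =>
    intro zL zR hz
    have hz' : zL ++ zR = (rep n (mp l) ++ (F ++ rep n (mq l))) ++ G := by
      rw [hz]; simp [List.append_assoc]
    rw [List.append_eq_append_iff] at hz'
    rcases hz' with ⟨c, h1, h2⟩ | ⟨c, h1, h2⟩
    · right
      exact ⟨[], zL, n, F, c, G, E.nil, hn, hF, hG, h1.symm, rfl, h2⟩
    · rcases ih rfl c zR h2.symm with ⟨h3, h4⟩ | ⟨G1, c', n', F', d, G2, h3, h4, h5, h6, h7, h8, h9⟩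
      · left
        refine ⟨?_, h4⟩
        rw [h1]
        have := E.node hn hF h3
        simpa [List.append_assoc] using this
      · right
        refine ⟨(rep n (mp l) ++ (F ++ rep n (mq l))) ++ G1, c', n', F', d, G2, ?_, h4, h5, h6, h7,
          ?_, h9⟩
        · have := E.node hn hF h3
          simpa [List.append_assoc] using this
        · rw [h1, h8]; simp [List.append_assoc]

/-! ### cuts of leaves -/

/-- the automaton of `chk` -/
def adv (l : ℕ) : Option (Bool × Fin (l + 2)) → Sk A → Option (Bool × Fin (l + 2))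
  | none, _ => none
  | some (b, k), Sk.s => some (b, ⟨min (k + 1) (l + 1), by omega⟩)
  | some (b, k), Sk.p => if (bif b then l + 1 else l) ≤ (k : ℕ) then some (false, 0) else none
  | some (b, k), Sk.q => if (bif b then l + 1 else l) ≤ (k : ℕ) then some (false, 0) else none
  | some (b, k), Sk.y _ => if b = false ∧ (k : ℕ) = 0 then some (false, 0) else none

theorem chk_min (l : ℕ) (w : List (Sk A)) : ∀ (b : Bool) (k k' : ℕ),
    min k (l + 1) = min k' (l + 1) → (chk l b k w ↔ chk l b k' w) := by
  induction w with
  | nil => intro b k k' h; simp only [chk]; omega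
  | cons a w ih =>
    intro b k k' h
    cases a with
    | s => simp only [chk]; exact ih b _ _ (by omega)
    | p => simp only [chk]; cases b <;> simp only [cond_true, cond_false] <;>
            (constructor <;> rintro ⟨h1, h2⟩ <;> exact ⟨by omega, h2⟩)
    | q => simp only [chk]; cases b <;> simp only [cond_true, cond_false] <;>
            (constructor <;> rintro ⟨h1, h2⟩ <;> exact ⟨by omega, h2⟩)
    | y a =>
      simp only [chk]
      constructor <;> rintro ⟨⟨h1, h2⟩, h3⟩ <;> exact ⟨⟨h1, by omega⟩, h3⟩

/-- continuation of `chk` -/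
def cont (l : ℕ) (z : List (Sk A)) : Option (Bool × Fin (l + 2)) → Prop
  | none => False
  | some (b, k) => chk l b k z

theorem chk_append (l : ℕ) (u z : List (Sk A)) : ∀ (b : Bool) (k : ℕ) (k' : Fin (l + 2)),
    min k (l + 1) = k' → (chk l b k (u ++ z) ↔ cont l z (u.foldl (adv l) (some (b, k')))) := by
  induction u with
  | nil =>
    intro b k k' h
    simp only [List.nil_append, List.foldl_nil, cont]
    apply chk_min
    omega
  | cons a u ih =>
    intro b k k' h
    have hnone : ∀ u : List (Sk A), u.foldl (adv l) none = none := by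
      intro u
      induction u with
      | nil => rfl
      | cons a u ih => simpa [adv] using ih
    cases a with
    | s =>
      simp only [List.cons_append, List.foldl_cons, chk, adv]
      apply ih
      simp only
      omega
    | p =>
      simp only [List.cons_append, List.foldl_cons, chk, adv]
      by_cases hb : (bif b then l + 1 else l) ≤ (k' : ℕ)
      · have hb' : (bif b then l + 1 else l) ≤ k := by omega
        rw [if_pos hb]
        simp only [hb', true_and]
        exact ih false 0 0 (by simp)
      · have hb' : ¬ (bif b then l + 1 else l) ≤ k := by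
          cases b <;> simp only [cond_true, cond_false] at hb ⊢ <;> omega
        rw [if_neg hb, hnone]
        simp [hb', cont]
    | q =>
      simp only [List.cons_append, List.foldl_cons, chk, adv]
      by_cases hb : (bif b then l + 1 else l) ≤ (k' : ℕ)
      · have hb' : (bif b then l + 1 else l) ≤ k := by omega
        rw [if_pos hb]
        simp only [hb', true_and]
        exact ih false 0 0 (by simp)
      · have hb' : ¬ (bif b then l + 1 else l) ≤ k := by
          cases b <;> simp only [cond_true, cond_false] at hb ⊢ <;> omega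
        rw [if_neg hb, hnone]
        simp [hb', cont]
    | y a =>
      simp only [List.cons_append, List.foldl_cons, chk, adv]
      by_cases hb : b = false ∧ (k' : ℕ) = 0
      · have hb' : b = false ∧ k = 0 := ⟨hb.1, by omega⟩
        rw [if_pos hb]
        simp only [hb', true_and, and_self]
        exact ih false 0 0 (by simp)
      · have hb' : ¬ (b = false ∧ k = 0) := fun h' => hb ⟨h'.1, by omega⟩
        rw [if_neg hb, hnone]
        simp only [hb', cont, false_and]

variable {Y : Type}

/-- outputs of left parts which are determined by the right part -/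
def U (K : Language A) (T : Tr (Sk A) Y) (l : ℕ) (r t : T.σ) : Set (List Y) :=
  {x | ∃ zL zR, E K false l (zL ++ zR) ∧ T.Run r zL x t ∧
    ∀ zL' x', E K false l (zL' ++ zR) → T.Run r zL' x' t → x' = x}

/-- the same with a leaf -/
def Lf (K : Language A) (T : Tr (Sk A) Y) (l : ℕ) (r t : T.σ) : Set (List Y) :=
  {x | ∃ zL zR, chk l true 0 (zL ++ zR) ∧ T.Run r zL x t ∧
    ∀ zL' x', E K false l (zL' ++ zR) → T.Run r zL' x' t → x' = x}

theorem Lf_PB (K : Language A) (T : Tr (Sk A) Y) (l : ℕ) (r t : T.σ) : PB (Lf K T l r t) := by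
  apply PB.of_labels (ι := Option (Bool × Fin (l + 2))) _
    (fun i x => ∃ zL zR, chk l true 0 (zL ++ zR) ∧ T.Run r zL x t ∧
      (∀ zL' x', E K false l (zL' ++ zR) → T.Run r zL' x' t → x' = x) ∧
      zL.foldl (adv l) (some (true, 0)) = i)
  · rintro x ⟨zL, zR, h1, h2, h3⟩
    exact ⟨_, zL, zR, h1, h2, h3, rfl⟩
  · rintro i x x' - - ⟨zL, zR, h1, h2, h3, h4⟩ ⟨zL', zR', h1', h2', h3', h4'⟩
    apply h3' zL x _ h2
    apply E.leaf
    rw [chk_append l _ _ true 0 0 (by simp), h4, ← h4', ← chk_append l _ _ true 0 0 (by simp)]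
    exact h1'

/-! ### left parts of the words of a language -/

/-- unique outputs of runs over left parts of the words in `W` -/
def Pf {X : Type} (W : Set (List X)) (T : Tr X Y) (r t : T.σ) : Set (List Y) :=
  {x | ∃ zL, (∃ zR, zL ++ zR ∈ W) ∧ T.Run r zL x t ∧ ∀ x', T.Run r zL x' t → x' = x}

/-- the outputs of runs over left parts of the words of `K` which are unique for their input word are
polynomially bounded -/
def Thin (K : Language A) : Prop :=
  ∀ (Y : Type) (T : Tr (Sk A) Y) (r t : T.σ),
    PB (Pf ((fun u : List A => u.map Sk.y) '' K) T r t)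

/-- all cuts in a repetition -/
def Vp {X : Type} (T : Tr X Y) (y : List X) (r t : T.σ) : Set (List Y) :=
  ⋃ i : Fin (y.length + 1), V T y (y.take i) r t

theorem Vp_PB {X : Type} (T : Tr X Y) (y : List X) (r t : T.σ) : PB (Vp T y r t) :=
  PB.iUnion fun _ => V_PB T y _ r t

/-- outputs of complete sequences -/
def Sq (K : Language A) (T : Tr (Sk A) Y) (l : ℕ) (r t : T.σ) : Set (List Y) :=
  {x | ∃ G, E K true l G ∧ T.Run r G x t ∧ ∀ G' x', E K true l G' → T.Run r G' x' t → x' = x}

theorem Sq_PB (K : Language A) (T : Tr (Sk A) Y) (l : ℕ) (r t : T.σ) : PB (Sq K T l r t) := by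
  apply PB.of_labels (ι := Unit) _ (fun _ _ => True)
  · intro x _
    exact ⟨(), trivial⟩
  · rintro _ x x' ⟨G, h1, h2, h3⟩ ⟨G', h1', h2', h3'⟩ _ _
    exact h3' G x h1 h2

theorem U_step (K : Language A) (hK : Thin K) (T : Tr (Sk A) Y) (l : ℕ)
    (h : ∀ r t, PB (U K T (l + 1) r t)) (r t : T.σ) : PB (U K T l r t) := by
  have := T.fin
  let W1 : Set (List Y) := ⋃ q, cat (Sq K T l r q) (Vp T (mp l) q t)
  let W2 : Set (List Y) := ⋃ q, ⋃ r1,
    cat (Sq K T l r q) (cat (V T (mp l) [] q r1) (U K T (l + 1) r1 t))
  let W3 : Set (List Y) := ⋃ q, ⋃ r1, ⋃ r2,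
    cat (Sq K T l r q) (cat (V T (mp l) [] q r1) (cat (U K T (l + 1) r1 r2) (Vp T (mq l) r2 t)))
  have hPB : PB ((Lf K T l r t ∪ Pf ((fun u : List A => u.map Sk.y) '' K) T r t) ∪
      (Sq K T l r t ∪ (W1 ∪ (W2 ∪ W3)))) := by
    refine ((Lf_PB K T l r t).union (hK Y T r t)).union
      ((Sq_PB K T l r t).union (PB.union ?_ (PB.union ?_ ?_)))
    · exact PB.iUnion fun q => (Sq_PB K T l r q).cat (Vp_PB T _ q t)
    · exact PB.iUnion fun q => PB.iUnion fun r1 =>
        (Sq_PB K T l r q).cat ((V_PB T _ _ q r1).cat (h r1 t))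
    · exact PB.iUnion fun q => PB.iUnion fun r1 => PB.iUnion fun r2 =>
        (Sq_PB K T l r q).cat ((V_PB T _ _ q r1).cat ((h r1 r2).cat (Vp_PB T _ r2 t)))
  refine hPB.mono ?_
  rintro x ⟨zL, zR, hE, hrun, huniq⟩
  have hE' := hE
  generalize hz : zL ++ zR = z at hE'
  cases hE' with
  | leaf hchk =>
    left; left
    refine ⟨zL, zR, ?_, hrun, huniq⟩
    rw [hz]; exact hchk
  | @word _ u hu =>
    left; right
    refine ⟨zL, ⟨zR, ?_⟩, hrun, fun x' hx' => huniq _ _ hE hx'⟩
    rw [hz]
    exact ⟨u, hu, rfl⟩
  | up hS =>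
    right
    rcases E_cut hS zL zR hz with ⟨h1, h2⟩ | ⟨G1, c, n, F, d, G2, hG1, hn, hF, hG2, hcd, rfl, rfl⟩
    · left
      exact ⟨zL, h1, hrun, fun G' x' hG' hx' => huniq _ _ (E.up (E_append hG' h2)) hx'⟩
    · right
      obtain ⟨q, x0, xc, rfl, hr0, hrc⟩ := run_split_in T hrun _ _ rfl
      -- the words of the language with the same frame
      have hall : ∀ G' c' n' F' d', E K true l G' → 1 ≤ n' → E K false (l + 1) F' →
          c' ++ d' = rep n' (mp l) ++ (F' ++ rep n' (mq l)) →
          E K false l ((G' ++ c') ++ (d' ++ G2)) := by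
        intro G' c' n' F' d' hG' hn' hF' hcd'
        have h1 := E_append hG' (E.node hn' hF' hG2)
        have h2 : (G' ++ c') ++ (d' ++ G2) =
            G' ++ (rep n' (mp l) ++ (F' ++ (rep n' (mq l) ++ G2))) := by
          have h3 : (G' ++ c') ++ (d' ++ G2) = G' ++ ((c' ++ d') ++ G2) := by
            simp [List.append_assoc]
          rw [h3, hcd']
          simp [List.append_assoc]
        rw [h2]
        exact E.up h1
      have hx0 : x0 ∈ Sq K T l r q := by
        refine ⟨G1, hG1, hr0, fun G' x' hG' hx' => ?_⟩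
        have := huniq _ _ (hall G' c n F d hG' hn hF hcd) (hx'.trans hrc)
        exact List.append_cancel_right this
      have hu : ∀ c' x', E K false l ((G1 ++ c') ++ (d ++ G2)) → T.Run q c' x' t → x' = xc := by
        intro c' x' h1 h2
        have := huniq _ _ h1 (hr0.trans h2)
        exact List.append_cancel_left this
      have hEc := hall G1 c n F d hG1 hn hF hcd
      have hcd' := hcd
      rw [List.append_eq_append_iff] at hcd'
      rcases hcd' with ⟨e, h1, h2⟩ | ⟨e, h1, h2⟩
      · -- cut in the first region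
        left
        obtain ⟨m, i, hi, hc⟩ := cut_rep _ _ _ _ h1.symm
        simp only [W1, Set.mem_iUnion]
        refine ⟨q, x0, hx0, xc, ?_, rfl⟩
        simp only [Vp, Set.mem_iUnion]
        refine ⟨⟨i, by omega⟩, m, ?_, fun x' hx' => ?_⟩
        · simp only
          rw [← hc]; exact hrc
        · simp only at hx'
          rw [← hc] at hx'
          exact hu c x' hEc hx'
      · right
        subst h1
        obtain ⟨r1, x1, x2, rfl, hr1, hr2⟩ := run_split_in T hrc _ _ rfl
        have hx1 : x1 ∈ V T (mp l) [] q r1 := by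
          refine ⟨n, by simpa using hr1, fun x' hx' => ?_⟩
          rw [List.append_nil] at hx'
          have := hu _ _ hEc (hx'.trans hr2)
          exact List.append_cancel_right this
        rw [eq_comm, List.append_eq_append_iff] at h2
        rcases h2 with ⟨d1, h3, h4⟩ | ⟨d1, h3, h4⟩
        · left
          -- cut in `F`
          simp only [W2, Set.mem_iUnion]
          refine ⟨q, r1, x0, hx0, _, ⟨x1, hx1, x2, ⟨e, d1, by rw [← h3]; exact hF, hr2, ?_⟩, rfl⟩,
            rfl⟩
          intro c' x' hE' hx'
          have h5 := hall G1 (rep n (mp l) ++ c') n (c' ++ d1) d hG1 hn hE'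
            (by rw [h4]; simp [List.append_assoc])
          have := hu _ _ h5 (hr1.trans hx')
          exact List.append_cancel_left this
        · right
          -- cut in the second region
          subst h3
          obtain ⟨r2, x3, x4, rfl, hr3, hr4⟩ := run_split_in T hr2 _ _ rfl
          have hx3 : x3 ∈ U K T (l + 1) r1 r2 := by
            refine ⟨F, [], by simpa using hF, hr3, ?_⟩
            intro F' x' hE' hx'
            rw [List.append_nil] at hE'
            have h5 := hall G1 (rep n (mp l) ++ (F' ++ d1)) n F' d hG1 hn hE'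
              (by rw [h4]; simp [List.append_assoc])
            have := hu _ _ h5 (hr1.trans (hx'.trans hr4))
            have := List.append_cancel_left this
            exact List.append_cancel_right this
          obtain ⟨m, i, hi, hd⟩ := cut_rep _ _ _ _ h4.symm
          simp only [W3, Set.mem_iUnion]
          refine ⟨q, r1, r2, x0, hx0, _, ⟨x1, hx1, _, ⟨x3, hx3, x4, ?_, rfl⟩, rfl⟩, rfl⟩
          simp only [Vp, Set.mem_iUnion]
          refine ⟨⟨i, by omega⟩, m, ?_, fun x' hx' => ?_⟩
          · simp only
            rw [← hd]; exact hr4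
          · simp only at hx'
            rw [← hd] at hx'
            have := hu _ _ hEc (hr1.trans (hr3.trans hx'))
            have := List.append_cancel_left this
            exact List.append_cancel_left this

/-! ### bounded languages -/

/-- the words `w_1^(n_1) ... w_k^(n_k)` -/
def Bd {X : Type} : List (List X) → Set (List X)
  | [] => {[]}
  | w :: ws => {u | ∃ n v, v ∈ Bd ws ∧ u = rep n w ++ v}

theorem Pf_mono {X : Type} {W W' : Set (List X)} (h : W ⊆ W') (T : Tr X Y) (r t : T.σ) :
    Pf W T r t ⊆ Pf W' T r t := by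
  rintro x ⟨zL, ⟨zR, h1⟩, h2⟩
  exact ⟨zL, ⟨zR, h h1⟩, h2⟩

theorem Pf_Bd_PB {X : Type} (T : Tr X Y) : ∀ (ws : List (List X)) (r t : T.σ),
    PB (Pf (Bd ws) T r t) := by
  have := T.fin
  intro ws
  induction ws with
  | nil =>
    intro r t
    refine (V_PB T [] [] r t).mono ?_
    rintro x ⟨zL, ⟨zR, h1⟩, h2, h3⟩
    have h1' : zL ++ zR = [] := h1
    have h4 : zL = [] := (List.append_eq_nil_iff.1 h1').1
    subst h4
    exact ⟨0, by simpa using h2, fun x' hx' => h3 x' (by simpa using hx')⟩
  | cons w ws ih =>
    intro r t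
    have hPB : PB (Vp T w r t ∪ ⋃ q, cat (V T w [] r q) (Pf (Bd ws) T q t)) :=
      (Vp_PB T w r t).union (PB.iUnion fun q => (V_PB T _ _ r q).cat (ih q t))
    refine hPB.mono ?_
    rintro x ⟨zL, ⟨zR, n, v, hv, hz⟩, hrun, huniq⟩
    rw [List.append_eq_append_iff] at hz
    rcases hz with ⟨c, h1, h2⟩ | ⟨c, h1, h2⟩
    · left
      obtain ⟨m, i, hi, hzL⟩ := cut_rep _ _ _ _ h1.symm
      subst hzL
      simp only [Vp, Set.mem_iUnion]
      exact ⟨⟨i, by omega⟩, m, hrun, huniq⟩
    · right
      subst h1
      obtain ⟨q, x1, x2, rfl, hr1, hr2⟩ := run_split_in T hrun _ _ rfl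
      simp only [Set.mem_iUnion]
      refine ⟨q, x1, ⟨n, by simpa using hr1, fun x' hx' => ?_⟩, x2,
        ⟨c, ⟨zR, by rw [← h2]; exact hv⟩, hr2, fun x' hx' => ?_⟩, rfl⟩
      · rw [List.append_nil] at hx'
        have := huniq _ (hx'.trans hr2)
        exact List.append_cancel_right this
      · have := huniq _ (hr1.trans hx')
        exact List.append_cancel_left this

theorem map_Bd {X Z : Type} (f : X → Z) : ∀ (ws : List (List X)) (u : List X), u ∈ Bd ws →
    u.map f ∈ Bd (ws.map (List.map f)) := by
  intro ws
  induction ws with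
  | nil =>
    intro u hu
    have : u = [] := hu
    subst this
    exact rfl
  | cons w ws ih =>
    rintro u ⟨n, v, hv, rfl⟩
    refine ⟨n, v.map f, ih v hv, ?_⟩
    rw [List.map_append]
    congr 1
    induction n with
    | zero => rfl
    | succ n ihn => rw [rep_succ, rep_succ, List.map_append, ihn]

theorem thin_of_bounded (K : Language A) (ws : List (List A)) (h : ∀ u ∈ K, u ∈ Bd ws) :
    Thin K := by
  intro Y T r t
  refine (Pf_Bd_PB T (ws.map (List.map Sk.y)) r t).mono (Pf_mono ?_ T r t)
  rintro _ ⟨u, hu, rfl⟩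
  exact map_Bd Sk.y ws u (h u hu)

end Pool.Agent.Y502.PC
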