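import Pool.Agent.Y502.PC.Lang
import Pool.Agent.H643R2.EadPal

set_option autoImplicit false

/-!
# Determined left parts of the languages in the cone of the recursive language
-/

namespace Pool.Agent.Y502.PC

open Pool.Agent.Helper288.Cone
open Pool.Agent.H643R2.PB
open Pool.Agent.H643R2.RunLem

variable {A : Type}

theorem chk_rep_s (l : ℕ) (b : Bool) (j : ℕ) (w : List (Sk A)) : ∀ k,
    chk l b k (rep j [Sk.s] ++ w) ↔ chk l b (k + j) w := by
  induction j with
  | zero => intro k; simp
  | succ j ih =>
    intro k
    rw [rep_succ]
    simp only [List.cons_append, List.nil_append, chk]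
    rw [ih]
    have : k + 1 + j = k + (j + 1) := by omega
    rw [this]

theorem rep_single (j : ℕ) : rep j [(Sk.s : Sk A)] = List.replicate j Sk.s := by
  induction j with
  | zero => rfl
  | succ j ih => rw [rep_succ, ih, List.replicate_succ]; rfl

theorem chk_false_of_true (l : ℕ) (w : List (Sk A)) : ∀ k, chk l true k w → chk l false k w := by
  induction w with
  | nil => intro k h; simpa [chk] using h
  | cons a w ih =>
    intro k h
    cases a with
    | s => simp only [chk] at h ⊢; exact ih _ h
    | p => simp only [chk, cond_true, cond_false] at h ⊢; exact ⟨by omega, h.2⟩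
    | q => simp only [chk, cond_true, cond_false] at h ⊢; exact ⟨by omega, h.2⟩
    | y a => exact absurd (show true = false from h.1.1) (by simp)

theorem chk_down (l : ℕ) (w : List (Sk A)) : ∀ k, chk (l + 1) false k w → chk l false k w := by
  induction w with
  | nil => intro k h; simpa [chk] using h
  | cons a w ih =>
    intro k h
    cases a with
    | s => simp only [chk] at h ⊢; exact ih _ h
    | p => simp only [chk, cond_false] at h ⊢; exact ⟨by omega, ih _ h.2⟩
    | q => simp only [chk, cond_false] at h ⊢; exact ⟨by omega, ih _ h.2⟩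
    | y a => simp only [chk] at h ⊢; exact ⟨h.1, ih _ h.2⟩

theorem chk_app (l : ℕ) (b : Bool) (P B : List (Sk A)) (hB : chk l false 0 B) : ∀ k, P ≠ [] →
    chk l b k P → chk l b k (P ++ B) := by
  induction P generalizing b with
  | nil => intro k h _; exact absurd rfl h
  | cons a P ih =>
    intro k _ h
    rcases P with _ | ⟨a', P⟩
    · cases a with
      | s => simp [chk] at h
      | p =>
        simp only [List.cons_append, List.nil_append, chk] at h ⊢
        exact ⟨h.1, hB⟩
      | q =>
        simp only [List.cons_append, List.nil_append, chk] at h ⊢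
        exact ⟨h.1, hB⟩
      | y a =>
        simp only [List.cons_append, List.nil_append, chk] at h ⊢
        exact ⟨h.1, hB⟩
    · cases a with
      | s => exact ih b _ (by simp) h
      | p => exact ⟨h.1, ih false _ (by simp) h.2⟩
      | q => exact ⟨h.1, ih false _ (by simp) h.2⟩
      | y a => exact ⟨h.1, ih false _ (by simp) h.2⟩

theorem chk_app' (l : ℕ) (P B : List (Sk A)) (hB : chk l false 0 B) (hA : chk l false 0 P) :
    chk l false 0 (P ++ B) := by
  rcases P with _ | ⟨a, P⟩
  · simpa using hB
  · exact chk_app l false _ B hB 0 (by simp) hA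

theorem chk_mp (l : ℕ) : chk l false 0 (mp l : List (Sk A)) := by
  rw [mp, ← rep_single, chk_rep_s]
  simp [chk]

theorem chk_mq (l : ℕ) : chk l false 0 (mq l : List (Sk A)) := by
  rw [mq, ← rep_single, chk_rep_s]
  simp [chk]

theorem chk_rep (l n : ℕ) (y : List (Sk A)) (h : chk l false 0 y) : chk l false 0 (rep n y) := by
  induction n with
  | zero => simp [chk]
  | succ n ih => rw [rep_succ]; exact chk_app' l _ _ ih h

theorem chk_word (l : ℕ) (u : List A) : chk l false 0 (u.map Sk.y) := by
  induction u with
  | nil => simp [chk]
  | cons a u ih => exact ⟨⟨rfl, rfl⟩, ih⟩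

theorem chk_of_E {K : Language A} {b : Bool} {l : ℕ} {w : List (Sk A)} (h : E K b l w) :
    chk l false 0 w := by
  induction h with
  | leaf h => exact chk_false_of_true _ _ _ h
  | word _ => exact chk_word _ _
  | up _ ih => exact ih
  | nil => simp [chk]
  | @node l n F G _ _ _ hF hG =>
    refine chk_app' l _ _ (chk_app' l _ _ (chk_app' l _ _ hG ?_)
      (chk_down _ _ _ hF)) ?_
    · exact chk_rep l n _ (chk_mq l)
    · exact chk_rep l n _ (chk_mp l)

variable {Y : Type}

theorem U_base (K : Language A) (hK : Thin K) (T : Tr (Sk A) Y) [Fintype T.σ] (D : ℕ)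
    (hD : Fintype.card T.σ ≤ D) (r t : T.σ) : PB (U K T D r t) := by
  refine (((Lf_PB K T D r t).union (hK Y T r t)).union (V_PB T [Sk.s] [] r t)).mono ?_
  rintro x ⟨zL, zR, hE, hrun, huniq⟩
  have hE' := hE
  generalize hz : zL ++ zR = z at hE'
  cases hE' with
  | leaf hchk =>
    left; left
    refine ⟨zL, zR, ?_, hrun, huniq⟩
    rw [hz]; exact hchk
  | @word _ u hu =>
    left; right
    refine ⟨zL, ⟨zR, ?_⟩, hrun, fun x' hx' => huniq _ _ hE hx'⟩
    rw [hz]
    exact ⟨u, hu, rfl⟩
  | up hS =>
    cases hS with
    | nil =>
      left; left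
      exact ⟨zL, zR, by rw [hz]; simp [chk], hrun, huniq⟩
    | @node _ n F G hn hF hG =>
      obtain ⟨n, rfl⟩ : ∃ n', n = n' + 1 := ⟨n - 1, by omega⟩
      have hchk := chk_of_E hE
      rw [rep_succ, mp, ← rep_single, List.append_assoc, List.append_assoc] at hz
      have hz0 := hz
      rw [hz, chk_rep_s] at hchk
      simp only [List.cons_append, List.nil_append, chk] at hchk
      have hrest := hchk.2
      rw [List.append_eq_append_iff] at hz
      have hpre : ∀ c, rep D [Sk.s] = zL ++ c → x ∈ V T [Sk.s] [] r t := by
        intro c hc
        have hzL : zL = rep zL.length [Sk.s] := by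
          rw [rep_single] at hc ⊢
          have := List.append_eq_replicate_iff.1 hc.symm
          exact this.2.1
        refine ⟨zL.length, ?_, ?_⟩
        · rw [← hzL, List.append_nil]; exact hrun
        · intro x' hx'
          rw [← hzL, List.append_nil] at hx'
          exact huniq _ _ hE hx'
      rcases hz with ⟨c, h1, h2⟩ | ⟨c, h1, h2⟩
      · right
        exact hpre c h1
      · rcases c with _ | ⟨a, c⟩
        · right
          rw [List.append_nil] at h1
          exact hpre [] (by rw [h1]; simp)
        · left; left
          simp only [List.cons_append, List.nil_append, List.cons.injEq] at h2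
          obtain ⟨rfl, h2⟩ := h2
          subst h1
          obtain ⟨i, k, q, q', x1, d, x2, hk, hik, hx, hcol, hr1, hr2, hr3⟩ :=
            pump_color T [Sk.s] (Sk.p :: c) (fun q _ => q) D hD D le_rfl r t x hrun
          subst hcol
          have hr := (hr1.trans (run_loop T hr2 2)).trans hr3
          rw [rep_rep] at hr
          have e1 : rep i [Sk.s] ++ rep (2 * k) [Sk.s] ++ (rep (D - (i + k)) [Sk.s] ++ Sk.p :: c)
              = rep (D + k) [Sk.s] ++ Sk.p :: c := by
            rw [← List.append_assoc, ← rep_add, ← rep_add]
            congr 2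
            omega
          rw [e1] at hr
          have hchk' : chk D true 0 ((rep (D + k) [Sk.s] ++ Sk.p :: c) ++ zR) := by
            rw [List.append_assoc, chk_rep_s]
            simp only [List.cons_append, chk, cond_true]
            refine ⟨by omega, ?_⟩
            rw [← h2]; exact hrest
          have hxx := huniq _ _ (E.leaf hchk') hr
          rw [hxx] at hr
          exact ⟨_, zR, hchk', hr, huniq⟩

theorem U_all (K : Language A) (hK : Thin K) (T : Tr (Sk A) Y) (l : ℕ) (r t : T.σ) :
    PB (U K T l r t) := by
  have := T.fin
  have key : ∀ j l, Fintype.card T.σ ≤ l + j → ∀ r t, PB (U K T l r t) := by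
    intro j
    induction j with
    | zero => intro l hl r t; exact U_base K hK T l (by omega) r t
    | succ j ih =>
      intro l hl r t
      exact U_step K hK T l (fun r t => ih (l + 1) (by omega) r t) r t
  exact key (Fintype.card T.σ) l (by omega) r t

/-- the generator -/
def Lg (K : Language A) : Language (Sk A) := {w | E K false 0 w}

/-- the words `x` which are the only word with `x y ∈ N`, for some word `y` -/
def Det (N : Language Y) : Set (List Y) := {x | ∃ y, x ++ y ∈ N ∧ ∀ x', x' ++ y ∈ N → x' = x}

/-- the determined left parts of the languages of the cone are polynomially bounded -/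
theorem det_PB (K : Language A) (hK : Thin K) (N : Language Y) (h : InCone (Lg K) N) :
    PB (Det N) := by
  obtain ⟨T, hT⟩ := h.exists_tr
  have := T.fin
  have hPB : PB (⋃ r, ⋃ t, U K T 0 r t) :=
    PB.iUnion fun r => PB.iUnion fun t => U_all K hK T 0 r t
  refine hPB.mono ?_
  rintro x ⟨y, hxy, hu⟩
  obtain ⟨w, hw, r, f, hr, hf, hrun⟩ := (hT (x ++ y)).1 hxy
  obtain ⟨t, zL, zR, rfl, h1, h2⟩ := run_split_out T hrun _ _ rfl
  simp only [Set.mem_iUnion]
  refine ⟨r, t, zL, zR, hw, h1, ?_⟩
  intro zL' x' hE hx'
  exact hu x' ((hT _).2 ⟨zL' ++ zR, hE, r, f, hr, hf, hx'.trans h2⟩)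

/-- the language of marked palindromes is not in the cone -/
theorem not_inCone_Pal (K : Language A) (hK : Thin K) :
    ¬ InCone (Lg K) Pool.Agent.H643R2.Ead.Pal := by
  intro h
  refine not_PB (some true) (some false) (by simp) ((det_PB K hK _ h).mono ?_)
  intro x hx
  -- `x` is the image of a Boolean word
  obtain ⟨u, rfl⟩ : ∃ u : List Bool, x = u.map some := by
    induction x with
    | nil => exact ⟨[], rfl⟩
    | cons a x ih =>
      obtain ⟨u, rfl⟩ := ih (fun y hy => hx y (List.mem_cons_of_mem _ hy))
      rcases hx a List.mem_cons_self with rfl | rfl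
      · exact ⟨true :: u, rfl⟩
      · exact ⟨false :: u, rfl⟩
  refine ⟨none :: (u.map some).reverse, ⟨u, rfl⟩, ?_⟩
  rintro x' ⟨v, hv⟩
  -- compare the two decompositions
  have hno : ∀ u : List Bool, none ∉ u.map some := by
    intro u; simp
  have hlen : (u.map some).reverse.length = (v.map some).reverse.length := by
    by_contra hne
    have hlen := congrArg List.length hv
    rw [List.append_eq_append_iff] at hv
    rcases hv with ⟨c, h4, h5⟩ | ⟨c, h4, h5⟩
    · rcases c with _ | ⟨a, c⟩
      · simp only [List.nil_append, List.cons.injEq, true_and] at h5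
        rw [h5] at hne
        exact hne rfl
      · simp only [List.cons_append, List.cons.injEq] at h5
        have : none ∈ v.map some := by rw [h4, ← h5.1]; simp
        exact hno _ this
    · rcases c with _ | ⟨a, c⟩
      · simp only [List.nil_append, List.cons.injEq, true_and] at h5
        rw [h5] at hne
        exact hne rfl
      · simp only [List.cons_append, List.cons.injEq] at h5
        have h6 : none ∈ (v.map some).reverse := by rw [h5.2]; simp
        rw [List.mem_reverse] at h6
        exact hno _ h6
  have h4 : x'.length = (v.map some).length := by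
    have := congrArg List.length hv
    simp only [List.length_append, List.length_cons] at this
    omega
  have h5 := List.append_inj hv h4
  have h6 := (List.cons.inj h5.2).2
  have h7 := congrArg List.reverse h6
  rw [List.reverse_reverse, List.reverse_reverse] at h7
  rw [h5.1, h7]

end Pool.Agent.Y502.PC
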